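import Pool.Agent.V5helper50.RC.Stm
import Pool.Agent.V5helper6.RS.MB
import Pool.Agent.V5helper7.RS.MC

/-!
# Project RC, job MC2: crude form of the bound for the sum of the means
-/

set_option autoImplicit false

namespace Pool.Agent.V5helper7.RC

open Finset Filter
open Pool.Agent.V5helper50.RC
open Pool.Agent.V5helper50.RS (Tk S_INT Tk_pos)
open Pool.Agent.V5helper6.RS (L0 range_of_mem)
open Pool.Agent.V5helper7.RS (exists_root ratio_le)

theorem w_le (k : ℕ) (q t : ℕ → ℕ) (j u i x : ℕ) : w k q t j u i x ≤ x ^ (j - i) := by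
  unfold w
  refine (card_filter_le _ _).trans ?_
  rw [Fintype.card_piFinset]
  simp

theorem w_zero {k : ℕ} {q t : ℕ → ℕ} {j u i x L₀ : ℕ} (hi : 1 ≤ i) (hx : L₀ ≤ x) (hu : u < L₀ ^ k) :
    w k q t j u i x = 0 := by
  unfold w
  rw [card_eq_zero, filter_eq_empty_iff]
  rintro y - ⟨-, h1, -⟩
  have h2 : L₀ ^ k ≤ x ^ k := Nat.pow_le_pow_left hx k
  have h3 : x ^ k ≤ i * x ^ k := Nat.le_mul_of_pos_left _ hi
  omega

theorem m_nonneg (k : ℕ) (q t : ℕ → ℕ) (j u x : ℕ) : 0 ≤ m k q t j u x := by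
  unfold m
  positivity

theorem m_le (k : ℕ) (q t : ℕ → ℕ) (j u x : ℕ) :
    m k q t j u x ≤ ∑ i ∈ Icc 1 j, (j.choose i : ℝ) * (x : ℝ) ^ (j - i) := by
  unfold m
  have h0 : (1 : ℝ) ≤ Tk k x := by exact_mod_cast Tk_pos k x
  have h1 : (0 : ℝ) ≤ ∑ i ∈ Icc 1 j, (j.choose i : ℝ) * (w k q t j u i x : ℝ) := by positivity
  refine (div_le_self h1 h0).trans (sum_le_sum fun i _ => ?_)
  refine mul_le_mul_of_nonneg_left ?_ (Nat.cast_nonneg _)
  exact_mod_cast w_le k q t j u i x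

theorem m_zero {k : ℕ} {q t : ℕ → ℕ} {j u x L₀ : ℕ} (hx : L₀ ≤ x) (hu : u < L₀ ^ k) :
    m k q t j u x = 0 := by
  unfold m
  rw [sum_eq_zero, zero_div]
  intro i hi
  rw [mem_Icc] at hi
  rw [w_zero hi.1 hx hu]
  simp

/-- the possible `(x, y)`, one modulus `q L` for all `x` -/
theorem mem_w {k K : ℕ} {q t : ℕ → ℕ} {j u i x L : ℕ} (hk : 2 ≤ k) (hC : Chain K q) (hi : 1 ≤ i)
    (hij : i ≤ j) (hLu : L ^ k ≤ u) (huL : u < (L + 1) ^ k) (hL0 : L0 k (q L) j ≤ L)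
    (y : Fin (j - i) → ℕ) (hy : y ∈ (Fintype.piFinset fun _ : Fin (j - i) => range x).filter (fun y =>
      (∑ l, A k q t (y l) + i * x ^ k) % q x = u % q x ∧ ∑ l, y l ^ k + i * x ^ k ≤ u ∧
      u < ∑ l, y l ^ k + i * x ^ k + j * q x * Tk k x)) :
    (∀ l, y l < L + 1) ∧ 1 ≤ x ∧ x ≤ L ∧ L ^ k ≤ j * L * Tk k x ∧ ∑ l, y l ^ k + i * x ^ k ≤ u ∧
      u < ∑ l, y l ^ k + i * x ^ k + j * q L * Tk k x := by
  simp only [Finset.mem_filter, Fintype.mem_piFinset, Finset.mem_range] at hy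
  obtain ⟨hy1, -, hy3, hy4⟩ := hy
  have hxL : x ≤ L := by
    by_contra hcon
    push Not at hcon
    have h3 : (L + 1) ^ k ≤ x ^ k := Nat.pow_le_pow_left hcon k
    have h4 : x ^ k ≤ i * x ^ k := Nat.le_mul_of_pos_left _ hi
    omega
  have hq : q x ≤ q L := hC.mono hxL
  have h5 : j * q x * Tk k x ≤ j * q L * Tk k x :=
    Nat.mul_le_mul_right _ (Nat.mul_le_mul_left _ hq)
  have h6 : u < ∑ l, y l ^ k + i * x ^ k + j * q L * Tk k x := by omega
  obtain ⟨g1, g2, g3⟩ := range_of_mem hk (hC.pos L) hi hij y hy1 hy3 h6 hLu huL hL0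
  exact ⟨fun l => by have := hy1 l; omega, g1, g2, g3, hy3, h6⟩

/-- counting the pairs `(x, y)` -/
theorem sum_w_le (hINT : S_INT) {k K : ℕ} {q t : ℕ → ℕ} {j u i L : ℕ} (n : ℕ) (hk : 2 ≤ k)
    (hC : Chain K q) (hi : 1 ≤ i) (hij : i ≤ j) (hLu : L ^ k ≤ u) (huL : u < (L + 1) ^ k)
    (hL0 : L0 k (q L) j ≤ L) :
    ∑ x ∈ range n, w k q t j u i x ≤ (L + 1) ^ (j - i) * (q L * (4 * j + 1)) := by
  classical
  set P : ℕ → (Fin (j - i) → ℕ) → Prop := fun x y =>
    1 ≤ x ∧ i * x ^ k ≤ u - ∑ l, y l ^ k ∧ u - ∑ l, y l ^ k < i * x ^ k + j * q L * Tk k x with hP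
  have h1 : ∀ x, w k q t j u i x ≤
      ∑ y ∈ Fintype.piFinset (fun _ : Fin (j - i) => range (L + 1)), if P x y then 1 else 0 := by
    intro x
    rw [← Finset.card_filter]
    unfold w
    refine Finset.card_le_card fun y hy => ?_
    obtain ⟨g0, g1, -, -, g4, g5⟩ := mem_w hk hC hi hij hLu huL hL0 y hy
    simp only [Finset.mem_filter, Fintype.mem_piFinset, Finset.mem_range]
    exact ⟨g0, g1, by omega, by omega⟩
  refine (Finset.sum_le_sum fun x _ => h1 x).trans ?_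
  rw [Finset.sum_comm]
  have h0 : ∀ y ∈ Fintype.piFinset (fun _ : Fin (j - i) => range (L + 1)),
      ∑ x ∈ range n, (if P x y then 1 else 0) ≤ q L * (4 * j + 1) := by
    intro y _
    rw [← Finset.card_filter]
    have h2 : ∀ x ∈ (range n).filter (fun x => P x y), x % q L ∈ range (q L) := fun x _ =>
      Finset.mem_range.2 (Nat.mod_lt _ (hC.pos L))
    rw [Finset.card_eq_sum_card_fiberwise h2]
    have h3 : q L * (4 * j + 1) = ∑ _r ∈ range (q L), (4 * j + 1) := by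
      rw [Finset.sum_const, smul_eq_mul, card_range]
    rw [h3]
    refine Finset.sum_le_sum fun r _ => ?_
    refine (Finset.card_le_card ?_).trans
      (hINT k (q L) j i (u - ∑ l, y l ^ k) n r hk (hC.pos L) (hi.trans hij) hi)
    intro x hx
    simp only [Finset.mem_filter, Finset.mem_range] at hx ⊢
    exact ⟨hx.1.1, hx.1.2.1, hx.1.2.2.1, hx.1.2.2.2, hx.2⟩
  refine (Finset.sum_le_card_nsmul _ _ _ h0).trans (le_of_eq ?_)
  rw [Fintype.card_piFinset, smul_eq_mul]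
  simp

theorem L0_le (k Q j : ℕ) (hk : 1 ≤ k) (hQ : 1 ≤ Q) :
    L0 k Q j ≤ (2 * j * (4 * k) ^ k + j + 2) * Q ^ k := by
  unfold L0
  obtain ⟨k', rfl⟩ : ∃ k', k = k' + 1 := ⟨k - 1, by omega⟩
  rw [Nat.add_sub_cancel]
  have h1 : 1 ≤ Q ^ (k' + 1) := Nat.one_le_pow _ _ hQ
  have h2 : Q ≤ Q ^ (k' + 1) := Nat.le_self_pow (by omega) Q
  have h3 : j * Q ≤ j * Q ^ (k' + 1) := Nat.mul_le_mul_left _ h2
  have h4 : j * Q * (1 + 4 * (k' + 1) * (4 * (k' + 1) * Q) ^ k') =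
      j * Q + j * (4 * (k' + 1) * Q) ^ (k' + 1) := by ring
  have h5 : j * (4 * (k' + 1) * Q) ^ (k' + 1) = j * (4 * (k' + 1)) ^ (k' + 1) * Q ^ (k' + 1) := by
    rw [mul_pow]; ring
  rw [h4, h5]
  have h6 : (2 * j * (4 * (k' + 1)) ^ (k' + 1) + j + 2) * Q ^ (k' + 1) =
      2 * (j * (4 * (k' + 1)) ^ (k' + 1) * Q ^ (k' + 1)) + j * Q ^ (k' + 1) + 2 * Q ^ (k' + 1) := by
    ring
  rw [h6]
  omega

theorem exists_L0 (k K j : ℕ) (hk : 1 ≤ k) : ∃ L₀ : ℕ, 1 ≤ L₀ ∧ ∀ L ≥ L₀, ∀ Q : ℕ, 1 ≤ Q →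
    Q ≤ K + Nat.log 2 (L + 1) → L0 k Q j ≤ L := by
  set c : ℕ := 2 * j * (4 * k) ^ k + j + 2 with hc
  have h1 : Tendsto (fun n : ℕ => (n : ℝ) ^ k / (2 : ℝ) ^ n) atTop (nhds 0) :=
    tendsto_pow_const_div_const_pow_of_one_lt k (by norm_num)
  have h2 : ∀ᶠ n : ℕ in atTop, (n : ℝ) ^ k / (2 : ℝ) ^ n < 1 / (c * 2 ^ k) :=
    h1.eventually (gt_mem_nhds (by positivity))
  obtain ⟨s₀, hs₀⟩ := eventually_atTop.1 h2
  refine ⟨2 ^ (max s₀ K), Nat.one_le_two_pow, fun L hL Q hQ1 hQ => ?_⟩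
  set s := Nat.log 2 (L + 1) with hs
  have h3 : max s₀ K ≤ s := by
    rw [hs]
    exact Nat.le_log_of_pow_le (by norm_num) (by omega)
  have h4 : 2 ^ s ≤ L + 1 := Nat.pow_log_le_self 2 (by omega)
  have h5 := hs₀ s ((le_max_left _ _).trans h3)
  rw [div_lt_div_iff₀ (by positivity) (by positivity), one_mul] at h5
  have h6 : s ^ k * (c * 2 ^ k) < 2 ^ s := by exact_mod_cast h5
  have h7 : Q ≤ 2 * s := by have := (le_max_right s₀ K).trans h3; omega
  have h8 : Q ^ k ≤ 2 ^ k * s ^ k := by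
    rw [← mul_pow]
    exact Nat.pow_le_pow_left h7 k
  have h9 := L0_le k Q j hk hQ1
  rw [← hc] at h9
  have h10 : c * Q ^ k ≤ s ^ k * (c * 2 ^ k) := by
    calc c * Q ^ k ≤ c * (2 ^ k * s ^ k) := Nat.mul_le_mul_left _ h8
      _ = s ^ k * (c * 2 ^ k) := by ring
  omega

theorem log_bound {K L L' Q : ℕ} (hL : 1 ≤ L) (h : L' ≤ L + 1) (hQ : Q ≤ K + Nat.log 2 (L' + 1)) :
    (Q : ℝ) ≤ (K + 2) * (1 + Real.log L) := by
  have hLr : (1 : ℝ) ≤ L := by exact_mod_cast hL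
  have hlog : 0 ≤ Real.log L := Real.log_nonneg hLr
  set s := Nat.log 2 (L' + 1) with hs
  have h1 : 2 ^ s ≤ L' + 1 := Nat.pow_log_le_self 2 (by omega)
  have h2 : (2 : ℝ) ^ s ≤ 3 * L := by
    have : 2 ^ s ≤ 3 * L := by omega
    exact_mod_cast this
  have h3 : (s : ℝ) * Real.log 2 ≤ Real.log 3 + Real.log L := by
    rw [← Real.log_mul (by norm_num) (by positivity), ← Real.log_pow]
    exact Real.log_le_log (by positivity) h2
  have h4 : (0.6931471803 : ℝ) < Real.log 2 := Real.log_two_gt_d9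
  have h5 : Real.log 3 ≤ 1.2 := by
    have e1 : Real.log 3 ≤ Real.log (Real.exp 1.2) := by
      refine Real.log_le_log (by norm_num) ?_
      have := Real.quadratic_le_exp_of_nonneg (x := 1.2) (by norm_num)
      have e2 : (3 : ℝ) ≤ Real.exp 1.2 := by
        have e3 : Real.exp 1.2 = Real.exp 0.6 * Real.exp 0.6 := by rw [← Real.exp_add]; norm_num
        have e4 : (1.78 : ℝ) ≤ Real.exp 0.6 := by
          have := Real.quadratic_le_exp_of_nonneg (x := 0.6) (by norm_num)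
          linarith
        rw [e3]
        nlinarith
      exact e2
    rwa [Real.log_exp] at e1
  have h6 : (s : ℝ) ≤ 2 * (1 + Real.log L) := by
    have hs0 : (0 : ℝ) ≤ s := Nat.cast_nonneg _
    nlinarith
  have h7 : (Q : ℝ) ≤ K + s := by exact_mod_cast hQ
  have h8 : (0 : ℝ) ≤ K := Nat.cast_nonneg _
  nlinarith

theorem t_MC2 : S_MC2 := by
  intro hINT k K q j hk hj hC
  obtain ⟨L₀, hL₀, hL0⟩ := exists_L0 k K j (by omega)
  set B : ℝ := ∑ x ∈ range L₀, ∑ i ∈ Icc 1 j, (j.choose i : ℝ) * (x : ℝ) ^ (j - i) with hB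
  have hB0 : 0 ≤ B := by positivity
  set C₁ : ℝ := (K + 2) * (2 ^ j * (4 * j + 1) * 2 ^ j * j) * 2 ^ j with hC₁
  have hjr : (1 : ℝ) ≤ j := by exact_mod_cast hj
  have hC₁0 : 0 < C₁ := by positivity
  refine ⟨C₁ + B, by positivity, ?_⟩
  intro L u n hL hu t ht
  have hLr : (1 : ℝ) ≤ L := by exact_mod_cast hL
  have hlog : 0 ≤ Real.log L := Real.log_nonneg hLr
  set X := max 1 ((L : ℝ) ^ j / (L : ℝ) ^ k) with hX
  have hmax : (1 : ℝ) ≤ X := le_max_left _ _
  rcases lt_or_ge u (L₀ ^ k) with hlt | hge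
  · have h1 : ∑ x ∈ range n, m k q t j u x ≤ B := by
      calc ∑ x ∈ range n, m k q t j u x ≤ ∑ x ∈ range (max n L₀), m k q t j u x :=
            sum_le_sum_of_subset_of_nonneg (range_mono (le_max_left _ _))
              (fun x _ _ => m_nonneg k q t j u x)
        _ = ∑ x ∈ range L₀, m k q t j u x := by
            symm
            refine sum_subset (range_mono (le_max_right _ _)) fun x _ hx => ?_
            rw [mem_range, not_lt] at hx
            exact m_zero hx hlt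
        _ ≤ B := sum_le_sum fun x _ => m_le k q t j u x
    have h2 : 1 ≤ (1 + Real.log L) * X := by nlinarith
    have h3 : C₁ + B ≤ (C₁ + B) * ((1 + Real.log L) * X) :=
      le_mul_of_one_le_right (by positivity) h2
    rw [mul_assoc]
    linarith
  · obtain ⟨L', h1, h2⟩ := exists_root k u (by omega)
    have h3 : L₀ ≤ L' := by
      by_contra hcon
      have : (L' + 1) ^ k ≤ L₀ ^ k := Nat.pow_le_pow_left (by omega) k
      omega
    have h4 : L' ≤ L + 1 := by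
      by_contra hcon
      have : (L + 1) ^ k < L' ^ k := Nat.pow_lt_pow_left (by omega) (by omega)
      omega
    have hL'1 : 1 ≤ L' := le_trans hL₀ h3
    have hL'r : (1 : ℝ) ≤ L' := by exact_mod_cast hL'1
    have hQ1 : 1 ≤ q L' := hC.pos L'
    have h5 : L0 k (q L') j ≤ L' := hL0 L' h3 _ hQ1 (hC.slow L')
    have h6 := ratio_le (j := j) (k := k) hL'1 h4 hL
    have h7 := log_bound (K := K) hL h4 (hC.slow L')
    set κ : ℝ := j * L' / (L' : ℝ) ^ k with hκ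
    have hκ0 : 0 ≤ κ := by positivity
    -- each term
    have g1 : ∀ x, ∀ i ∈ Icc 1 j, (j.choose i : ℝ) * (w k q t j u i x : ℝ) / Tk k x ≤
        (j.choose i : ℝ) * (w k q t j u i x : ℝ) * κ := by
      intro x i hi
      obtain ⟨hi1, hi2⟩ := Finset.mem_Icc.1 hi
      have hT : (0 : ℝ) < Tk k x := by exact_mod_cast Tk_pos k x
      rcases Nat.eq_zero_or_pos (w k q t j u i x) with h0 | h0
      · rw [h0]; simp
      · obtain ⟨y, hy⟩ := Finset.card_pos.1 h0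
        obtain ⟨-, -, -, g3, -, -⟩ := mem_w hk hC hi1 hi2 h1 h2 h5 y hy
        have g3r : (L' : ℝ) ^ k ≤ j * L' * Tk k x := by exact_mod_cast g3
        rw [div_eq_mul_inv]
        refine mul_le_mul_of_nonneg_left ?_ (by positivity)
        rw [hκ, inv_eq_one_div, div_le_div_iff₀ hT (by positivity)]
        linarith
    have g2 : ∑ x ∈ range n, m k q t j u x ≤
        ∑ i ∈ Icc 1 j, (j.choose i : ℝ) * ((∑ x ∈ range n, w k q t j u i x : ℕ) : ℝ) * κ := by
      have : ∀ x, m k q t j u x ≤ ∑ i ∈ Icc 1 j, (j.choose i : ℝ) * (w k q t j u i x : ℝ) * κ := by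
        intro x
        unfold m
        rw [Finset.sum_div]
        exact Finset.sum_le_sum (g1 x)
      refine (Finset.sum_le_sum fun x _ => this x).trans (le_of_eq ?_)
      rw [Finset.sum_comm]
      refine Finset.sum_congr rfl fun i _ => ?_
      rw [Nat.cast_sum, ← Finset.sum_mul, ← Finset.mul_sum]
    set D : ℝ := (2 * L') ^ (j - 1) * (q L' * (4 * j + 1)) with hD
    have hD0 : 0 ≤ D := by positivity
    have g3 : ∀ i ∈ Icc 1 j, ((∑ x ∈ range n, w k q t j u i x : ℕ) : ℝ) ≤ D := by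
      intro i hi
      obtain ⟨hi1, hi2⟩ := Finset.mem_Icc.1 hi
      have e1 := sum_w_le (t := t) hINT n hk hC hi1 hi2 h1 h2 h5
      have e2 : ((∑ x ∈ range n, w k q t j u i x : ℕ) : ℝ) ≤
          ((L' : ℝ) + 1) ^ (j - i) * (q L' * (4 * j + 1)) := by exact_mod_cast e1
      refine e2.trans ?_
      rw [hD]
      refine mul_le_mul_of_nonneg_right ?_ (by positivity)
      calc ((L' : ℝ) + 1) ^ (j - i) ≤ (2 * L') ^ (j - i) :=
            pow_le_pow_left₀ (by positivity) (by linarith) _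
        _ ≤ (2 * L') ^ (j - 1) := pow_le_pow_right₀ (by linarith) (by omega)
    have g4 : ∑ i ∈ Icc 1 j, (j.choose i : ℝ) * ((∑ x ∈ range n, w k q t j u i x : ℕ) : ℝ) * κ ≤
        2 ^ j * D * κ := by
      rw [← Finset.sum_mul]
      refine mul_le_mul_of_nonneg_right ?_ hκ0
      have e1 := Nat.sum_range_choose j
      have e2 : ∑ i ∈ Icc 1 j, (j.choose i : ℝ) ≤ 2 ^ j := by
        calc ∑ i ∈ Icc 1 j, (j.choose i : ℝ) ≤ ∑ i ∈ range (j + 1), (j.choose i : ℝ) := by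
              refine Finset.sum_le_sum_of_subset_of_nonneg ?_ fun i _ _ => Nat.cast_nonneg _
              intro i hi
              rw [Finset.mem_range]
              have := (Finset.mem_Icc.1 hi).2
              omega
          _ = 2 ^ j := by exact_mod_cast e1
      calc ∑ i ∈ Icc 1 j, (j.choose i : ℝ) * ((∑ x ∈ range n, w k q t j u i x : ℕ) : ℝ)
          ≤ ∑ i ∈ Icc 1 j, (j.choose i : ℝ) * D :=
            Finset.sum_le_sum fun i hi => mul_le_mul_of_nonneg_left (g3 i hi) (Nat.cast_nonneg _)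
        _ = (∑ i ∈ Icc 1 j, (j.choose i : ℝ)) * D := by rw [Finset.sum_mul]
        _ ≤ 2 ^ j * D := mul_le_mul_of_nonneg_right e2 hD0
    have g5 : 2 ^ j * D * κ ≤
        (2 ^ j * (4 * j + 1) * 2 ^ j * j) * (q L') * ((L' : ℝ) ^ j / (L' : ℝ) ^ k) := by
      obtain ⟨j', rfl⟩ : ∃ j', j = j' + 1 := ⟨j - 1, by omega⟩
      rw [hD, hκ, Nat.add_sub_cancel, mul_pow]
      have e1 : (2 : ℝ) ^ j' ≤ 2 ^ (j' + 1) := pow_le_pow_right₀ (by norm_num) (by omega)
      have e2 : 2 ^ (j' + 1) * (2 ^ j' * (L' : ℝ) ^ j' * (q L' * (4 * ((j' + 1 : ℕ) : ℝ) + 1))) *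
          (((j' + 1 : ℕ) : ℝ) * L' / (L' : ℝ) ^ k) =
          (2 ^ (j' + 1) * (4 * ((j' + 1 : ℕ) : ℝ) + 1) * 2 ^ j' * ((j' + 1 : ℕ) : ℝ)) * (q L') *
            ((L' : ℝ) ^ (j' + 1) / (L' : ℝ) ^ k) := by
        rw [pow_succ (L' : ℝ) j']
        ring
      rw [e2]
      refine mul_le_mul_of_nonneg_right ?_ (by positivity)
      refine mul_le_mul_of_nonneg_right ?_ (by positivity)
      refine mul_le_mul_of_nonneg_right ?_ (by positivity)
      exact mul_le_mul_of_nonneg_left e1 (by positivity)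
    have g6 : (2 ^ j * (4 * j + 1) * 2 ^ j * j) * (q L') * ((L' : ℝ) ^ j / (L' : ℝ) ^ k) ≤
        (2 ^ j * (4 * j + 1) * 2 ^ j * j) * ((K + 2) * (1 + Real.log L)) * (2 ^ j * X) := by
      refine mul_le_mul ?_ h6 (by positivity) (by positivity)
      exact mul_le_mul_of_nonneg_left h7 (by positivity)
    calc ∑ x ∈ range n, m k q t j u x
        ≤ (2 ^ j * (4 * j + 1) * 2 ^ j * j) * ((K + 2) * (1 + Real.log L)) * (2 ^ j * X) :=
          g2.trans (g4.trans (g5.trans g6))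
      _ = C₁ * (1 + Real.log L) * X := by rw [hC₁]; ring
      _ ≤ (C₁ + B) * (1 + Real.log L) * X := by
          refine mul_le_mul_of_nonneg_right ?_ (by positivity)
          refine mul_le_mul_of_nonneg_right ?_ (by positivity)
          linarith

end Pool.Agent.V5helper7.RC
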